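import Pool.Agent.Helper28.TK.StV

/-!
# Project TK, low levels, module LTr: transport of the Eichler potentials, coordinate `z`
-/

set_option autoImplicit false

namespace Pool.Agent.Helper29.TKV

open Pool.Agent.Helper28.TH (OkH ALPlus)

open Pool.Agent.Helper28.TK Pool.Agent.Helper28.WK Pool.Agent.Helper28.LV Pool.Agent.Helper28.TK Pool.Agent.Helper14.CV
open Pool.Agent.Helper4.TL (OkE)
open Polynomial (X C)

private theorem pr_phi (a : ℕ) (I : ℤ → ℤ → ℕ → ℂ) (P : Polynomial ℤ) (x y : ℤ) :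
    pr (PhN a I) P x y = pr I P x y + ((-1 : ℤ) ^ a) • pr I (P.comp (C (-1) * X)) (-x) y := by
  induction P using Polynomial.induction_on' with
  | add P Q hP hQ =>
    rw [pr_add, Polynomial.add_comp, pr_add, pr_add]
    simp only [Pi.add_apply, hP, hQ, smul_add]
    abel
  | monomial n c =>
    have h1 : (Polynomial.monomial n c : Polynomial ℤ) = C c * X ^ n :=
      (Polynomial.C_mul_X_pow_eq_monomial).symm
    have h2 : (C c * X ^ n : Polynomial ℤ).comp (C (-1) * X) = C c * (C ((-1) ^ n) * X ^ n) := by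
      rw [Polynomial.mul_comp, Polynomial.pow_comp, Polynomial.C_comp, Polynomial.X_comp, mul_pow,
        Polynomial.C_pow]
    rw [h1, h2]
    simp only [pr_C_mul, pr_X_pow, Pi.smul_apply, cp, PhN, smul_add, smul_smul]
    congr 2
    rw [pow_add]
    ring

section

variable {p a n : ℕ} {I : ℤ → ℤ → ℕ → ℂ}

private theorem ne_p {p : ℕ} (hp : p.Prime) : (p : ℤ) ≠ 0 := by exact_mod_cast hp.ne_zero

private theorem ne_neg {x y : ℤ} (h : x ≠ 0 ∨ y ≠ 0) : -x ≠ 0 ∨ y ≠ 0 := by simpa using h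

private theorem deg_lin (u i : ℤ) (j : ℕ) : ((C u * X - C i) ^ j : Polynomial ℤ).natDegree ≤ j := by
  refine (Polynomial.natDegree_pow_le).trans ?_
  have h1 : (C u * X - C i : Polynomial ℤ).natDegree ≤ 1 := by
    rw [sub_eq_add_neg, ← Polynomial.C_neg]
    exact Polynomial.natDegree_linear_le
  nlinarith

private theorem n_gen (K : ℤ) (α β γ δ : ℤ) (i : ℕ)
    (h1 : EqC (K • act α β γ δ (cp I i)) (pr I ((C α * X + C β) ^ i *
      (C γ * X + C δ) ^ (2 * a - i))))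
    (g2 : EqC (K • act α (-β) (-γ) δ (cp I i)) (pr I ((C α * X + C (-β)) ^ i *
      (C (-γ) * X + C δ) ^ (2 * a - i)))) :
    EqC (K • act α β γ δ (cp (PhN a I) i)) (pr (PhN a I) ((C α * X + C β) ^ i *
      (C γ * X + C δ) ^ (2 * a - i))) := by
  have h2 := g2.act (a := -1) (b := 0) (c := 0) (d := 1) (by norm_num)
  have h3 := h1.add (h2.smul ((-1 : ℤ) ^ (a + i)))
  have e1 : K • act α β γ δ (cp I i) +
      ((-1 : ℤ) ^ (a + i)) • act (-1) 0 0 1 (K • act α (-β) (-γ) δ (cp I i)) =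
      K • act α β γ δ (cp (PhN a I) i) := by
    funext x y
    simp only [Pi.add_apply, Pi.smul_apply, act, cp, PhN]
    have a3 : α * (-1 * x + 0 * y) + -β * (0 * x + 1 * y) = -(α * x + β * y) := by ring
    have a4 : -γ * (-1 * x + 0 * y) + δ * (0 * x + 1 * y) = γ * x + δ * y := by ring
    rw [a3, a4, smul_add, smul_comm K ((-1 : ℤ) ^ (a + i))]
  have b2 : ((C α * X + C β) ^ i * (C γ * X + C δ) ^ (2 * a - i) : Polynomial ℤ).comp
      (C (-1) * X) = C ((-1) ^ i) *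
        ((C α * X + C (-β)) ^ i * (C (-γ) * X + C δ) ^ (2 * a - i)) := by
    have c1 : (C α * (C (-1 : ℤ) * X) + C β : Polynomial ℤ) = C (-1 : ℤ) * (C α * X + C (-β)) := by
      simp only [Polynomial.C_neg, map_one]
      ring
    have c2 : (C γ * (C (-1 : ℤ) * X) + C δ : Polynomial ℤ) = C (-γ) * X + C δ := by
      simp only [Polynomial.C_neg, map_one]
      ring
    rw [Polynomial.mul_comp, Polynomial.pow_comp, Polynomial.pow_comp, Polynomial.add_comp, Polynomial.add_comp,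
      Polynomial.mul_comp, Polynomial.mul_comp, Polynomial.C_comp, Polynomial.C_comp, Polynomial.C_comp,
      Polynomial.C_comp, Polynomial.X_comp, c1, c2, mul_pow, ← Polynomial.C_pow, mul_assoc]
  have e2 : pr I ((C α * X + C β) ^ i * (C γ * X + C δ) ^ (2 * a - i)) +
      ((-1 : ℤ) ^ (a + i)) • act (-1) 0 0 1
        (pr I ((C α * X + C (-β)) ^ i * (C (-γ) * X + C δ) ^ (2 * a - i))) =
      pr (PhN a I) ((C α * X + C β) ^ i * (C γ * X + C δ) ^ (2 * a - i)) := by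
    funext x y
    rw [pr_phi, b2, pr_C_mul]
    simp only [Pi.add_apply, Pi.smul_apply, act, smul_smul]
    have a2 : 0 * x + 1 * y = y := by ring
    have a3 : -1 * x + 0 * y = -x := by ring
    rw [a2, a3]
    congr 2
    rw [pow_add]
  rw [e1, e2] at h3
  exact h3

private theorem dvd_two (hp : p.Prime) (hp2 : p ≠ 3) {γ : ℤ} (h2 : (3 : ℤ) ∣ γ)
    (hγ : (p : ℤ) ^ n ∣ γ) : 3 * (p : ℤ) ^ n ∣ γ := by
  refine IsCoprime.mul_dvd ?_ h2 hγ
  refine IsCoprime.pow_right ?_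
  have h3 : Nat.Coprime 3 p := (Nat.coprime_primes Nat.prime_three hp).2 (Ne.symm hp2)
  exact_mod_cast (Nat.isCoprime_iff_coprime (m := 3) (n := p)).2 h3

private theorem p_eqv (hp : p.Prime) (hp2 : p ≠ 3) (h : IDnH p a n I) : ∀ α β γ δ : ℤ, α * δ - β * γ = 1 →
    (3 : ℤ) ∣ γ → (p : ℤ) ^ n ∣ γ → ∀ i : ℕ, i ≤ 2 * a →
    EqC (act α β γ δ (cp (PhN a I) i)) (pr (PhN a I) ((C α * X + C β) ^ i *
      (C γ * X + C δ) ^ (2 * a - i))) := by
  intro α β γ δ hd h2 hγ i hi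
  have hγ' := dvd_two hp hp2 h2 hγ
  have g1 := h.eqv α β γ δ hd hγ' i hi
  have g2 := h.eqv α (-β) (-γ) δ (by linear_combination hd) ((dvd_neg).2 hγ') i hi
  have g3 := n_gen 1 α β γ δ i (by rwa [one_smul]) (by rwa [one_smul])
  rwa [one_smul] at g3

private theorem p_eqq (hp : p.Prime) (hp2 : p ≠ 3) (h : IDnH p a n I) : ∀ α β γ δ : ℤ, α * δ - β * γ = 3 →
    (3 : ℤ) ∣ α → (3 : ℤ) ∣ γ → (3 : ℤ) ∣ δ → (p : ℤ) ^ n ∣ γ → ∀ i : ℕ, i ≤ 2 * a →
    EqC ((3 ^ a : ℤ) • act α β γ δ (cp (PhN a I) i)) (pr (PhN a I) ((C α * X + C β) ^ i *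
      (C γ * X + C δ) ^ (2 * a - i))) := by
  intro α β γ δ hd hα h2 hδ hγ i hi
  have hγ' := dvd_two hp hp2 h2 hγ
  have g1 := h.eqq α β γ δ hd hα hδ hγ' i hi
  have g2 := h.eqq α (-β) (-γ) δ (by linear_combination hd) hα hδ ((dvd_neg).2 hγ') i hi
  exact n_gen (3 ^ a) α β γ δ i g1 g2

private theorem p_fr (hp : p.Prime) (h : IDnH p a n I) :
    EqC (act 0 (-1) (3 * (p : ℤ) ^ n) 0 (cp (PhN a I) a)) (-(cp (PhN a I) a)) := by
  obtain ⟨c, hc⟩ := h.fr
  have hH := h.hom a (by omega)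
  refine ⟨(2 : ℤ) • c, fun x y hxy => ?_⟩
  have hp1 : 3 * (p : ℤ) ^ n ≠ 0 := mul_ne_zero three_ne_zero (pow_ne_zero _ (ne_p hp))
  have h1 := hc x y hxy
  have h2 := hc (-x) y (ne_neg hxy)
  have hv2 : y ≠ 0 ∨ 3 * (p : ℤ) ^ n * x ≠ 0 := by
    rcases hxy with hx | hy
    · exact Or.inr (mul_ne_zero hp1 hx)
    · exact Or.inl hy
  have h4 := hH (-1) y (3 * (p : ℤ) ^ n * x) (by norm_num) hv2
  simp only [act, cp, Pi.neg_apply] at h1 h2 h4
  have e1 : (0 : ℤ) * x + -1 * y = -y := by ring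
  have e2 : 3 * (p : ℤ) ^ n * x + 0 * y = 3 * (p : ℤ) ^ n * x := by ring
  have e3 : (0 : ℤ) * -x + -1 * y = -1 * y := by ring
  have e4 : 3 * (p : ℤ) ^ n * -x + 0 * y = -1 * (3 * (p : ℤ) ^ n * x) := by ring
  rw [e1, e2] at h1
  rw [e3, e4, h4] at h2
  simp only [act, cp, Pi.neg_apply, PhN]
  have e7 : (-1 : ℤ) ^ (a + a) = 1 := Even.neg_one_pow ⟨a, rfl⟩
  rw [e1, e2, neg_neg, h1, h2, e7, one_smul, one_smul, two_smul]
  abel

private theorem p_st (_h : IDnH p a n I) :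
    EqC (act (-1) 0 0 1 (cp (PhN a I) a)) (cp (PhN a I) a) := by
  refine EqC.of_eq fun x y _ => ?_
  simp only [act, cp, PhN]
  have e1 : -1 * x + 0 * y = -x := by ring
  have e2 : 0 * x + 1 * y = y := by ring
  have e7 : (-1 : ℤ) ^ (a + a) = 1 := Even.neg_one_pow ⟨a, rfl⟩
  rw [e1, e2, neg_neg, e7, one_smul, one_smul, add_comm]

/-- the Hecke operators multiply the symmetrised potentials by constants -/
private theorem hecke (hp : p.Prime) (h : IDnH p a n I) : ∃ lam : ℕ → ℂ, ∀ (M : ℕ), ∀ l : ℕ, l.Prime → l ≠ p → l ≠ 3 →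
    ∀ i : ℕ, i ≤ 2 * a → ∀ x y : ℤ, (x ≠ 0 ∨ y ≠ 0) →
    WT a l ((p : ℤ) ^ M) (PhN a I) x y i = lam l * PhN a I x y i := by
  obtain ⟨lam, hlam⟩ := h.hk
  refine ⟨lam, fun M l hl hlp hl2 i hi x y hxy => ?_⟩
  have hcop : IsCoprime ((p : ℤ) ^ M) (l : ℤ) := by
    refine IsCoprime.pow_left ?_
    rw [Nat.isCoprime_iff_coprime]
    exact (Nat.coprime_primes hp hl).2 (Ne.symm hlp)
  have hcop' : IsCoprime (-(p : ℤ) ^ M) (l : ℤ) := hcop.neg_left
  have h1 := hlam l ((p : ℤ) ^ M) hl hlp hl2 hcop i hi x y hxy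
  have h2 := hlam l (-(p : ℤ) ^ M) hl hlp hl2 hcop' i hi (-x) y (ne_neg hxy)
  have e2 : ∀ j : ℕ, ((C (l : ℤ) * X - C ((p : ℤ) ^ M * j)) ^ i : Polynomial ℤ).comp (C (-1) * X) =
      C ((-1) ^ i) * (C (l : ℤ) * X - C (-(p : ℤ) ^ M * j)) ^ i := by
    intro j
    rw [Polynomial.pow_comp, Polynomial.sub_comp, Polynomial.mul_comp, Polynomial.C_comp, Polynomial.X_comp,
      Polynomial.C_comp, Polynomial.C_pow, ← mul_pow]
    congr 1
    have e3 : -(p : ℤ) ^ M * j = -((p : ℤ) ^ M * j) := by ring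
    rw [e3, Polynomial.C_neg (a := (p : ℤ) ^ M * j), Polynomial.C_neg, map_one]
    ring
  have key : WT a l ((p : ℤ) ^ M) (PhN a I) x y i =
      ((∑ j ∈ Finset.range l, pr I ((C (l : ℤ) * X - C ((p : ℤ) ^ M * j)) ^ i)
        (x + (p : ℤ) ^ M * j * y) (l * y)) + ((l : ℤ) ^ (2 * a - i)) • I (l * x) y i) +
      ((-1 : ℤ) ^ (a + i)) • ((∑ j ∈ Finset.range l, pr I ((C (l : ℤ) * X - C (-(p : ℤ) ^ M * j)) ^ i)
        (-x + -(p : ℤ) ^ M * j * y) (l * y)) + ((l : ℤ) ^ (2 * a - i)) • I (l * -x) y i) := by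
    simp only [WT]
    have h3 : ∀ j ∈ Finset.range l, pr (PhN a I) ((C (l : ℤ) * X - C ((p : ℤ) ^ M * j)) ^ i)
        (x + (p : ℤ) ^ M * j * y) (l * y) =
        pr I ((C (l : ℤ) * X - C ((p : ℤ) ^ M * j)) ^ i)
          (x + (p : ℤ) ^ M * j * y) (l * y) +
        ((-1 : ℤ) ^ (a + i)) • pr I ((C (l : ℤ) * X - C (-(p : ℤ) ^ M * j)) ^ i)
          (-x + -(p : ℤ) ^ M * j * y) (l * y) := by
      intro j _
      rw [pr_phi, e2, pr_C_mul]
      simp only [Pi.smul_apply, smul_smul]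
      have a3 : -(x + (p : ℤ) ^ M * j * y) = -x + -(p : ℤ) ^ M * j * y := by ring
      rw [a3, ← pow_add]
    rw [Finset.sum_congr rfl h3, Finset.sum_add_distrib, ← Finset.smul_sum]
    simp only [PhN, smul_add]
    have a5 : -((l : ℤ) * x) = l * -x := by ring
    rw [a5, smul_comm ((l : ℤ) ^ (2 * a - i)) ((-1 : ℤ) ^ (a + i))]
    abel
  rw [key, h1, h2]
  simp only [PhN, zsmul_eq_mul]
  ring

/-- words -/
private theorem words (hp : p.Prime) (h : IDnH p a n I) (M : ℕ) : ∀ ls : List ℕ, OkH 3 p ls → ∃ c : ℂ,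
    ∀ i : ℕ, i ≤ 2 * a → ∀ x y : ℤ, (x ≠ 0 ∨ y ≠ 0) →
      WTw a ((p : ℤ) ^ M) ls (PhN a I) x y i = c * PhN a I x y i := by
  obtain ⟨lam, hlam⟩ := hecke hp h
  intro ls
  induction ls with
  | nil =>
    intro _
    exact ⟨1, fun i _ x y _ => by simp [WTw]⟩
  | cons l ls ih =>
    intro hok
    obtain ⟨c, hc⟩ := ih (fun k hk => hok k (List.mem_cons_of_mem _ hk))
    obtain ⟨hl, hlp, hl2⟩ := hok l List.mem_cons_self
    refine ⟨c * lam l, fun i hi x y hxy => ?_⟩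
    have hl0 : (l : ℤ) ≠ 0 := by exact_mod_cast hl.ne_zero
    have hpr : ∀ (P : Polynomial ℤ), P.natDegree ≤ 2 * a → ∀ u v : ℤ, (u ≠ 0 ∨ v ≠ 0) →
        pr (WTw a ((p : ℤ) ^ M) ls (PhN a I)) P u v = c * pr (PhN a I) P u v := by
      intro P hP u v huv
      rw [pr_eq_sum _ P (2 * a + 1) (by omega), pr_eq_sum _ P (2 * a + 1) (by omega)]
      simp only [Finset.sum_apply, Pi.smul_apply, cp, Finset.mul_sum]
      refine Finset.sum_congr rfl fun k hk => ?_
      rw [Finset.mem_range] at hk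
      rw [hc k (by omega) u v huv, mul_smul_comm]
    have h1 := hlam M l hl hlp hl2 i hi x y hxy
    have hgoal : WTw a ((p : ℤ) ^ M) (l :: ls) (PhN a I) x y i =
        c * WT a l ((p : ℤ) ^ M) (PhN a I) x y i := by
      simp only [WTw, WT]
      rw [mul_add, Finset.mul_sum]
      congr 1
      · refine Finset.sum_congr rfl fun j _ => ?_
        refine hpr _ ((deg_lin _ _ _).trans hi) _ _ ?_
        by_cases hy : y = 0
        · left
          subst hy
          simpa using hxy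
        · exact Or.inr (mul_ne_zero hl0 hy)
      · rw [hc i hi (l * x) y, mul_smul_comm]
        rcases hxy with hx | hy
        · exact Or.inl (mul_ne_zero hl0 hx)
        · exact Or.inr hy
    rw [hgoal, h1]
    ring

end

theorem hLTr : ZLTr := by
  intro p a n I hp hp2 h h0
  refine ⟨?_, p_eqv hp hp2 h, p_eqq hp hp2 h, p_fr hp h, p_st h, ?_⟩
  · intro i hi k x y hk hxy
    simp only [cp, PhN]
    have h1 := h.hom i hi k x y hk hxy
    have h2 := h.hom i hi k (-x) y hk (ne_neg hxy)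
    simp only [cp] at h1 h2
    have a2 : -(k * x) = k * -x := by ring
    rw [a2, h1, h2]
  · intro M _ ls hls
    obtain ⟨c, hc⟩ := words hp h M ls hls
    rw [hc a (by omega) 1 0 (Or.inl one_ne_zero), hc a (by omega) 0 1 (Or.inr one_ne_zero)]
    have ha := h.hom a (by omega)
    have e1 := ha (-1) 1 0 (by norm_num) (Or.inl one_ne_zero)
    simp only [cp, mul_one, mul_zero] at e1
    have e3 := h.inf a (by omega)
    simp only [PhN, neg_zero, e1, e3, h0, smul_zero, add_zero]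

end Pool.Agent.Helper29.TKV
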